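import Pool.Agent.Lib.MP_ad6092_nt.Defs

namespace Pool.Agent.Lib.MP_ad6092_nt

open Filter Topology

variable {p q : ℕ}

lemma repr_zero : repr p q 0 = [] := by
  rw [repr]; simp

lemma repr_pos (hqp : q < p) {N : ℕ} (hN : N ≠ 0) :
    repr p q N = repr p q (q * N / p) ++ [q * N % p] := by
  conv_lhs => rw [repr]
  rw [dif_neg]
  rw [not_or, not_le]
  exact ⟨hN, hqp⟩

lemma repr_eq_nil (hqp : q < p) {N : ℕ} (h : repr p q N = []) : N = 0 := by
  by_contra hN
  rw [repr_pos hqp hN] at h
  simp at h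

lemma repr_inj (hq : 0 < q) (hqp : q < p) : ∀ {N N' : ℕ}, repr p q N = repr p q N' → N = N' := by
  intro N
  induction N using Nat.strong_induction_on with
  | _ N ih =>
    intro N' h
    by_cases hN : N = 0
    · subst hN
      rw [repr_zero] at h
      exact (repr_eq_nil hqp h.symm).symm
    · by_cases hN' : N' = 0
      · subst hN'
        rw [repr_zero] at h
        exact absurd (repr_eq_nil hqp h) hN
      · rw [repr_pos hqp hN, repr_pos hqp hN'] at h
        have h2 := List.append_inj' h rfl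
        have hlt : q * N / p < N :=
          Nat.div_lt_of_lt_mul (Nat.mul_lt_mul_of_pos_right hqp (Nat.pos_of_ne_zero hN))
        have e1 := ih _ hlt h2.1
        have e2 : q * N % p = q * N' % p := by simpa using h2.2
        have : q * N = q * N' := by
          rw [← Nat.div_add_mod (q * N) p, ← Nat.div_add_mod (q * N') p, e1, e2]
        exact Nat.eq_of_mul_eq_mul_left hq this

lemma word_self (a : ℤ → ℕ) (k : ℤ) : word a k k = [a k] := by
  simp [word]

lemma word_step (a : ℤ → ℕ) {k j : ℤ} (h : j < k) :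
    word a k j = word a k (j + 1) ++ [a j] := by
  have e : (k + 1 - j).toNat = (k + 1 - (j + 1)).toNat + 1 := by omega
  unfold word
  rw [e, List.range_succ, List.map_append]
  congr 1
  simp only [List.map_cons, List.map_nil]
  congr 2
  have : ((k + 1 - (j + 1)).toNat : ℤ) = k - j := by omega
  rw [this]; ring

/-- A path: a two-sided sequence of integers obtained from each other by the division step, not
identically zero. -/
structure IsPath (p q : ℕ) (N : ℤ → ℕ) : Prop where
  step : ∀ l, N (l + 1) = q * N l / p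
  ne : ∃ l, N l ≠ 0

/-- digit sequence of a path -/
def dig (p q : ℕ) (N : ℤ → ℕ) (l : ℤ) : ℕ := q * N l % p

lemma IsPath.eq {N : ℤ → ℕ} (h : IsPath p q N) (l : ℤ) :
    q * N l = p * N (l + 1) + dig p q N l := by
  rw [h.step, dig, Nat.div_add_mod]

lemma dig_lt (hp : 0 < p) (N : ℤ → ℕ) (l : ℤ) : dig p q N l < p := Nat.mod_lt _ hp

lemma IsPath.zero_up {N : ℤ → ℕ} (h : IsPath p q N) {l : ℤ} (hl : N l = 0) (n : ℕ) :
    N (l + n) = 0 := by
  induction n with
  | zero => simpa using hl
  | succ n ih =>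
    have : l + ((n + 1 : ℕ) : ℤ) = (l + n) + 1 := by push_cast; ring
    rw [this, h.step, ih]; simp

lemma IsPath.zero_of_le {N : ℤ → ℕ} (h : IsPath p q N) {l m : ℤ} (hl : N l = 0) (hm : l ≤ m) :
    N m = 0 := by
  have := h.zero_up hl (m - l).toNat
  rwa [Int.toNat_of_nonneg (by omega), add_sub_cancel] at this

lemma IsPath.exists_zero (hqp : q < p) {N : ℤ → ℕ} (h : IsPath p q N) (l : ℤ) :
    ∃ n : ℕ, N (l + n) = 0 := by
  by_contra hcon
  push Not at hcon
  have key : ∀ n : ℕ, N (l + n) + n ≤ N l := by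
    intro n
    induction n with
    | zero => simp
    | succ n ih =>
      have e : l + ((n + 1 : ℕ) : ℤ) = (l + n) + 1 := by push_cast; ring
      have hlt : q * N (l + n) / p < N (l + n) :=
        Nat.div_lt_of_lt_mul (Nat.mul_lt_mul_of_pos_right hqp (Nat.pos_of_ne_zero (hcon n)))
      rw [e, h.step]
      omega
  have := key (N l + 1)
  omega

/-- The top position of a path. -/
lemma IsPath.exists_top (hqp : q < p) {N : ℤ → ℕ} (h : IsPath p q N) :
    ∃ k, N k ≠ 0 ∧ ∀ l, k < l → N l = 0 := by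
  obtain ⟨l0, hl0⟩ := h.ne
  have hex := h.exists_zero hqp l0
  classical
  let n := Nat.find hex
  have hn : N (l0 + n) = 0 := Nat.find_spec hex
  have hn0 : n ≠ 0 := by
    intro h0
    rw [h0] at hn
    simp at hn
    exact hl0 hn
  obtain ⟨m, hm⟩ := Nat.exists_eq_succ_of_ne_zero hn0
  refine ⟨l0 + m, ?_, ?_⟩
  · exact Nat.find_min hex (show m < n by omega)
  · intro l hl
    refine h.zero_of_le hn ?_
    rw [hm]; push_cast; omega

lemma pathval_mono (hq : 0 < q) {N : ℤ → ℕ} (h : IsPath p q N) (l : ℤ) :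
    (N (l + 1) : ℝ) * ((p : ℝ) / q) ^ (l + 1) ≤ (N l : ℝ) * ((p : ℝ) / q) ^ l := by
  have hq' : (0 : ℝ) < q := by exact_mod_cast hq
  by_cases hp : p = 0
  · have hN : N (l + 1) = 0 := by rw [h.step, hp]; simp
    rw [hN]
    simp only [Nat.cast_zero, zero_mul]
    positivity
  have hp' : (0 : ℝ) < p := by exact_mod_cast Nat.pos_of_ne_zero hp
  have e := h.eq l
  have e' : (q : ℝ) * N l = p * N (l + 1) + dig p q N l := by exact_mod_cast e
  have hle : (p : ℝ) / q * N (l + 1) ≤ N l := by
    rw [div_mul_eq_mul_div, div_le_iff₀ hq']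
    have : (0 : ℝ) ≤ dig p q N l := by positivity
    linarith
  rw [zpow_add_one₀ (by positivity)]
  have hpos : (0 : ℝ) < ((p : ℝ) / q) ^ l := by positivity
  nlinarith

/-- The path has limit value `x`. -/
def HasValue (p q : ℕ) (N : ℤ → ℕ) (x : ℝ) : Prop :=
  Tendsto (fun n : ℕ => (N (-(n : ℤ)) : ℝ) * ((p : ℝ) / q) ^ (-(n : ℤ))) atTop (𝓝 x)

lemma hasValue_shift {N : ℤ → ℕ} {x : ℝ} (k : ℤ) :
    HasValue p q N x ↔
      Tendsto (fun n : ℕ => (N (k - (n : ℤ)) : ℝ) * ((p : ℝ) / q) ^ (k - (n : ℤ))) atTop (𝓝 x) := by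
  -- both are limits of the same function along integers going to -∞
  have h1 : ∀ c : ℤ, Tendsto (fun n : ℕ => (N (c - (n : ℤ)) : ℝ) * ((p : ℝ) / q) ^ (c - (n : ℤ)))
      atTop (𝓝 x) ↔ Tendsto (fun n : ℕ => (N (c + 1 - (n : ℤ)) : ℝ) * ((p : ℝ) / q) ^ (c + 1 - (n : ℤ)))
      atTop (𝓝 x) := by
    intro c
    rw [← tendsto_add_atTop_iff_nat (f := fun n : ℕ => (N (c + 1 - (n : ℤ)) : ℝ) *
      ((p : ℝ) / q) ^ (c + 1 - (n : ℤ))) 1]
    apply tendsto_congr
    intro n
    have : c + 1 - ((n + 1 : ℕ) : ℤ) = c - n := by push_cast; ring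
    rw [this]
  have h2 : ∀ m : ℕ, HasValue p q N x ↔ Tendsto (fun n : ℕ => (N ((m : ℤ) - (n : ℤ)) : ℝ) *
      ((p : ℝ) / q) ^ ((m : ℤ) - (n : ℤ))) atTop (𝓝 x) := by
    intro m
    induction m with
    | zero => simp [HasValue]
    | succ m ih => rw [ih, h1]; push_cast; rfl
  have h3 : ∀ m : ℕ, HasValue p q N x ↔ Tendsto (fun n : ℕ => (N (-(m : ℤ) - (n : ℤ)) : ℝ) *
      ((p : ℝ) / q) ^ (-(m : ℤ) - (n : ℤ))) atTop (𝓝 x) := by
    intro m
    induction m with
    | zero => simp [HasValue]
    | succ m ih =>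
      rw [ih, h1 (-((m + 1 : ℕ) : ℤ))]
      have : -((m + 1 : ℕ) : ℤ) + 1 = -m := by push_cast; ring
      rw [this]
  rcases le_total 0 k with hk | hk
  · have := h2 k.toNat
    rwa [Int.toNat_of_nonneg hk] at this
  · have := h3 (-k).toNat
    rwa [Int.toNat_of_nonneg (by omega), neg_neg] at this

lemma path_partial_sum (hq : 0 < q) (hp : 0 < p) {N : ℤ → ℕ} (h : IsPath p q N) {k : ℤ}
    (hk : N (k + 1) = 0) (n : ℕ) :
    ∑ i ∈ Finset.range n, (dig p q N (k - i) : ℝ) * ((p : ℝ) / q) ^ (k - (i : ℤ)) / q =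
      (N (k + 1 - n) : ℝ) * ((p : ℝ) / q) ^ (k + 1 - (n : ℤ)) := by
  have hq' : (0 : ℝ) < q := by exact_mod_cast hq
  have hp' : (0 : ℝ) < p := by exact_mod_cast hp
  induction n with
  | zero => simp [hk]
  | succ n ih =>
    rw [Finset.sum_range_succ, ih]
    have e0 : k + 1 - ((n + 1 : ℕ) : ℤ) = k - n := by push_cast; ring
    rw [e0]
    have e1 : k + 1 - (n : ℤ) = (k - n) + 1 := by ring
    rw [e1]
    have e := h.eq (k - n)
    have e' : (q : ℝ) * N (k - n) = p * N (k - n + 1) + dig p q N (k - n) := by exact_mod_cast e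
    rw [zpow_add_one₀ (by positivity)]
    have e2 : (N (k - n) : ℝ) = (p * N (k - n + 1) + dig p q N (k - n)) / q := by
      rw [← e']; field_simp
    rw [e2]
    ring

/-- Expansions come from paths. -/
lemma exists_path (hq : 0 < q) (hqp : q < p) {x : ℝ} {a : ℤ → ℕ} (ha : a ∈ expansions p q x) :
    ∃ N, IsPath p q N ∧ HasValue p q N x ∧ a = dig p q N := by
  obtain ⟨k, h0, hw, hs⟩ := ha
  have hp : 0 < p := by omega
  choose! F hF using hw
  -- F j is the integer represented by the prefix down to j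
  let N : ℤ → ℕ := fun j => if j ≤ k then F j else 0
  have hNk : ∀ j, k < j → N j = 0 := fun j hj => by
    simp only [N]; rw [if_neg (by omega)]
  have hrep : ∀ j, j ≤ k → repr p q (N j) = word a k j := fun j hj => by
    simp only [N]; rw [if_pos hj]; exact hF j hj
  have key : ∀ j, N (j + 1) = q * N j / p ∧ a j = q * N j % p := by
    intro j
    rcases lt_trichotomy j k with hj | hj | hj
    · have r1 := hrep j hj.le
      have r2 := hrep (j + 1) (by omega)
      rw [word_step a hj, ← r2] at r1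
      have hne : N j ≠ 0 := by
        intro h0
        rw [h0, repr_zero] at r1
        simp at r1
      rw [repr_pos hqp hne] at r1
      have r3 := List.append_inj' r1 rfl
      refine ⟨(repr_inj hq hqp r3.1).symm, ?_⟩
      have := r3.2
      simp at this
      exact this.symm
    · subst hj
      have r1 := hrep j le_rfl
      rw [word_self] at r1
      have hne : N j ≠ 0 := by
        intro h0
        rw [h0, repr_zero] at r1
        simp at r1
      rw [repr_pos hqp hne] at r1
      have r3 := List.append_inj' (s₁ := repr p q (q * N j / p)) (s₂ := [])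
        (t₁ := [q * N j % p]) (t₂ := [a j]) (by rw [r1]; rfl) rfl
      refine ⟨?_, ?_⟩
      · rw [repr_eq_nil hqp r3.1, hNk _ (by omega)]
      · have := r3.2
        simp at this
        exact this.symm
    · rw [hNk _ hj, hNk _ (by omega), h0 _ hj]
      simp
  have hne : ∃ l, N l ≠ 0 := by
    refine ⟨k, ?_⟩
    intro h0
    have r1 := hrep k le_rfl
    rw [h0, repr_zero, word_self] at r1
    simp at r1
  have hP : IsPath p q N := ⟨fun l => (key l).1, hne⟩
  have hadig : a = dig p q N := by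
    funext l; exact (key l).2
  refine ⟨N, hP, ?_, hadig⟩
  rw [hasValue_shift (k + 1)]
  have hk1 : N (k + 1) = 0 := hNk _ (by omega)
  have hs' := hs.tendsto_sum_nat
  refine hs'.congr ?_
  intro n
  rw [hadig]
  exact path_partial_sum hq hp hP hk1 n

/-- Paths give expansions. -/
lemma mem_expansions (hq : 0 < q) (hqp : q < p) {x : ℝ} {N : ℤ → ℕ} (h : IsPath p q N)
    (hx : HasValue p q N x) {k : ℤ} (hk0 : N k ≠ 0) (hk : ∀ l, k < l → N l = 0) :
    IsExpansion p q x k (dig p q N) := by
  have hp : 0 < p := by omega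
  refine ⟨?_, ?_, ?_⟩
  · intro l hl
    rw [dig, hk l hl]; simp
  · intro j hj
    refine ⟨N j, ?_⟩
    obtain ⟨n, rfl⟩ : ∃ n : ℕ, j = k - n := ⟨(k - j).toNat, by omega⟩
    induction n with
    | zero =>
      simp only [Nat.cast_zero, sub_zero]
      rw [repr_pos hqp hk0, ← h.step, hk _ (by omega), repr_zero, word_self]
      rfl
    | succ n ih =>
      have hj' : k - ((n + 1 : ℕ) : ℤ) < k := by push_cast; omega
      have hne : N (k - ((n + 1 : ℕ) : ℤ)) ≠ 0 := by
        intro h0
        exact hk0 (h.zero_of_le h0 hj'.le)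
      have e : k - ((n + 1 : ℕ) : ℤ) + 1 = k - n := by push_cast; ring
      rw [repr_pos hqp hne, ← h.step, word_step _ hj', e, ih (by omega)]
      rfl
  · rw [hasSum_iff_tendsto_nat_of_nonneg (fun i => by positivity)]
    rw [hasValue_shift (k + 1)] at hx
    refine hx.congr ?_
    intro n
    exact (path_partial_sum hq hp h (hk _ (by omega)) n).symm

end Pool.Agent.Lib.MP_ad6092_nt
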