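import Pool.Agent.Lib.MP_ad6092_nt.Gaps

namespace Pool.Agent.Lib.MP_ad6092_nt

open Filter Topology

variable {p q : ℕ}

/-- exceptional sequences of order `r` -/
def Exceptional (p q r : ℕ) (M : ℕ → ℕ) : Prop :=
  1 ≤ M 0 ∧ ∀ n, p * M n + r * (p - q) ≤ q * M (n + 1) ∧ q * M (n + 1) < p * M n + q

/-- Given finitely many expansions of `x`, all gaps are constant far down. -/
lemma gaps_const (hq : 2 ≤ q) (hqp : q < p) (hcop : Nat.Coprime p q) {x : ℝ} {N N' : ℤ → ℕ}
    (h : IsPath p q N) (h' : IsPath p q N') (hx : HasValue p q N x) (hx' : HasValue p q N' x)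
    {j0 : ℤ} (hj : N j0 < N' j0) :
    ∃ l0 ≤ j0, ∃ g, 1 ≤ g ∧ ∀ l ≤ l0, N' l = N l + g := by
  -- the gap function
  let G : ℕ → ℕ := fun n => N' (j0 - n) - N (j0 - n)
  have hlt : ∀ n : ℕ, N (j0 - n) < N' (j0 - n) := fun n => lt_down_nat hqp h h' hj n
  have hmono : Monotone G := by
    apply monotone_nat_of_le_succ
    intro n
    have e : j0 - ((n + 1 : ℕ) : ℤ) + 1 = j0 - n := by push_cast; ring
    have h1 := hlt n
    have h3 := hlt (n + 1)
    have h2 := gap_mono hqp h h' (l := j0 - ((n + 1 : ℕ) : ℤ)) (by rw [e]; exact h1)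
    rw [e] at h2
    simp only [G]
    omega
  have hbound : ∀ n, G n < p := by
    intro n
    have := gap_bound hq hqp hcop h h' hx hx' (hlt n)
    have h1 : 1 * (N' (j0 - n) - N (j0 - n)) ≤ (p - q) * (N' (j0 - n) - N (j0 - n)) :=
      Nat.mul_le_mul_right _ (by omega)
    simp only [G]
    omega
  -- eventually constant
  obtain ⟨n0, hn0⟩ : ∃ n0, ∀ n, G n ≤ G n0 := by
    have hfin : (Set.range G).Finite := (Set.finite_lt_nat p).subset (by
      rintro _ ⟨n, rfl⟩; exact hbound n)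
    obtain ⟨y, hy, hmax⟩ := hfin.exists_maximal (Set.range_nonempty G)
    obtain ⟨n0, rfl⟩ := hy
    refine ⟨n0, fun n => ?_⟩
    by_contra hcon
    push Not at hcon
    have := hmax (Set.mem_range_self n) hcon.le
    omega
  refine ⟨j0 - n0, by omega, G n0, ?_, ?_⟩
  · have := hlt n0
    simp only [G]; omega
  · intro l hl
    obtain ⟨n, rfl⟩ : ∃ n : ℕ, l = j0 - n := ⟨(j0 - l).toNat, by omega⟩
    have h1 : n0 ≤ n := by omega
    have h2 := hmono h1
    have h3 := hn0 n
    have h4 := hlt n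
    have h5 : G n = G n0 := le_antisymm h3 h2
    simp only [G] at h5 ⊢
    omega

/-- Many expansions give an exceptional sequence. -/
theorem exists_exceptional (hq : 2 ≤ q) (hqp : q < p) (hcop : Nat.Coprime p q) {x : ℝ} {r : ℕ}
    (hr : 1 ≤ r) (F : Finset (ℤ → ℕ)) (hF : ∀ a ∈ F, a ∈ expansions p q x)
    (hcard : F.card = r + 2) : ∃ M, Exceptional p q r M := by
  classical
  obtain ⟨P, hP, j0, hj0⟩ := finset_paths (by omega) hqp F hF
  have hne : F.Nonempty := Finset.card_pos.1 (by omega)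
  obtain ⟨lo, hlo, hlo'⟩ := Finset.exists_min_image F (fun a => P a j0) hne
  obtain ⟨hi, hhi, hhi'⟩ := Finset.exists_max_image F (fun a => P a j0) hne
  have hcard' : (F.erase lo).card = r + 1 := by
    rw [Finset.card_erase_of_mem hlo, hcard]; omega
  have hne' : (F.erase lo).Nonempty := Finset.card_pos.1 (by omega)
  obtain ⟨a1, ha1, ha1'⟩ := Finset.exists_min_image (F.erase lo) (fun a => P a j0) hne'
  have ha1F : a1 ∈ F := Finset.mem_of_mem_erase ha1
  have hinj : Set.InjOn (fun a => P a j0) (F : Set (ℤ → ℕ)) := by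
    intro a ha b hb hab
    by_contra hn
    exact hj0 j0 le_rfl a ha b hb hn hab
  -- lo < a1
  have hlt1 : P lo j0 < P a1 j0 := by
    have h1 := hlo' a1 ha1F
    have h2 := hj0 j0 le_rfl lo hlo a1 ha1F (Finset.ne_of_mem_erase ha1).symm
    omega
  -- hi - a1 ≥ r
  have hgap : P a1 j0 + r ≤ P hi j0 := by
    have hsub : (F.erase lo).image (fun a => P a j0) ⊆ Finset.Icc (P a1 j0) (P hi j0) := by
      intro y hy
      obtain ⟨a, ha, rfl⟩ := Finset.mem_image.1 hy
      exact Finset.mem_Icc.2 ⟨ha1' a ha, hhi' a (Finset.mem_of_mem_erase ha)⟩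
    have hc : ((F.erase lo).image (fun a => P a j0)).card = r + 1 := by
      rw [Finset.card_image_of_injOn (hinj.mono (by
        intro a ha
        exact Finset.mem_of_mem_erase (Finset.mem_coe.1 ha))), hcard']
    have hle := Finset.card_le_card hsub
    rw [hc, Nat.card_Icc] at hle
    omega
  obtain ⟨l1, hl1, g1, hg1, hG1⟩ := gaps_const hq hqp hcop (hP lo hlo).1 (hP a1 ha1F).1
    (hP lo hlo).2.1 (hP a1 ha1F).2.1 hlt1
  obtain ⟨l2, hl2, g2, hg2, hG2⟩ := gaps_const hq hqp hcop (hP a1 ha1F).1 (hP hi hhi).1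
    (hP a1 ha1F).2.1 (hP hi hhi).2.1 (show P a1 j0 < P hi j0 by omega)
  -- g2 ≥ r
  have hg2r : r ≤ g2 := by
    have hmono : ∀ n : ℕ, P a1 (j0 - n) + r ≤ P hi (j0 - n) := by
      intro n
      induction n with
      | zero => simpa using hgap
      | succ n ih =>
        have e : j0 - ((n + 1 : ℕ) : ℤ) + 1 = j0 - n := by push_cast; ring
        have h1 := gap_mono hqp (hP a1 ha1F).1 (hP hi hhi).1 (l := j0 - ((n + 1 : ℕ) : ℤ))
          (by rw [e]; omega)
        rw [e] at h1
        omega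
    have h1 := hmono (j0 - l2).toNat
    rw [Int.toNat_of_nonneg (by omega), sub_sub_cancel] at h1
    have h2 := hG2 l2 le_rfl
    omega
  set L := min l1 l2 with hL
  refine ⟨fun n => P a1 (L - n), ?_, ?_⟩
  · have := hG1 L (min_le_left _ _)
    simp only [Nat.cast_zero, sub_zero]
    omega
  · intro n
    have e : L - ((n + 1 : ℕ) : ℤ) + 1 = L - n := by push_cast; ring
    have hle : L - ((n + 1 : ℕ) : ℤ) ≤ l1 := by
      have := min_le_left l1 l2; push_cast; omega
    have hle2 : L - ((n + 1 : ℕ) : ℤ) ≤ l2 := by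
      have := min_le_right l1 l2; push_cast; omega
    have A := (hP a1 ha1F).1.eq (L - ((n + 1 : ℕ) : ℤ))
    have Lo := (hP lo hlo).1.eq (L - ((n + 1 : ℕ) : ℤ))
    have Hi := (hP hi hhi).1.eq (L - ((n + 1 : ℕ) : ℤ))
    rw [e] at A Lo Hi
    have l1a := hG1 (L - ((n + 1 : ℕ) : ℤ)) hle
    have l1b := hG1 (L - n) (by have := min_le_left l1 l2; omega)
    have l2a := hG2 (L - ((n + 1 : ℕ) : ℤ)) hle2
    have l2b := hG2 (L - n) (by have := min_le_right l1 l2; omega)
    have dlo := dig_lt (q := q) (show 0 < p by omega) (P lo) (L - ((n + 1 : ℕ) : ℤ))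
    rw [l2a, l2b] at Hi
    rw [l1a, l1b] at A
    simp only
    rw [l1a, l1b]
    obtain ⟨t, rfl⟩ : ∃ t, p = q + t := ⟨p - q, by omega⟩
    have ht : 1 ≤ t := by omega
    have hr1 : r * t ≤ g2 * t := Nat.mul_le_mul_right _ hg2r
    have hr2 : t ≤ g1 * t := Nat.le_mul_of_pos_left _ (by omega)
    rw [l1a, l1b] at Hi
    have et : q + t - q = t := by omega
    rw [et]
    constructor
    · nlinarith
    · nlinarith

/-- two-sided extension of a one-sided sequence -/
def ext (p q : ℕ) (S : ℕ → ℕ) (c : ℤ) (l : ℤ) : ℕ :=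
  if l ≤ c then S (c - l).toNat else (fun m => q * m / p)^[(l - c).toNat] (S 0)

lemma ext_le (S : ℕ → ℕ) (c : ℤ) (n : ℕ) : ext p q S c (c - n) = S n := by
  unfold ext
  rw [if_pos (by omega)]
  congr 1
  omega

lemma ext_ge (S : ℕ → ℕ) (c : ℤ) (n : ℕ) :
    ext p q S c (c + n) = (fun m => q * m / p)^[n] (S 0) := by
  unfold ext
  cases n with
  | zero => simp
  | succ n =>
    rw [if_neg (by omega)]
    congr 1
    omega

lemma ext_path {S : ℕ → ℕ} (c : ℤ) (hS : ∀ n, S n = q * S (n + 1) / p) (hne : ∃ n, S n ≠ 0) :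
    IsPath p q (ext p q S c) := by
  constructor
  · intro l
    rcases lt_or_ge l c with hl | hl
    · obtain ⟨n, rfl⟩ : ∃ n : ℕ, l = c - ((n + 1 : ℕ) : ℤ) := ⟨(c - l).toNat - 1, by omega⟩
      have e : c - ((n + 1 : ℕ) : ℤ) + 1 = c - n := by push_cast; ring
      rw [e, ext_le, ext_le, hS]
    · obtain ⟨n, rfl⟩ : ∃ n : ℕ, l = c + n := ⟨(l - c).toNat, by omega⟩
      have e : c + (n : ℤ) + 1 = c + ((n + 1 : ℕ) : ℤ) := by push_cast; ring
      rw [e, ext_ge, ext_ge, Function.iterate_succ', Function.comp]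
  · obtain ⟨n, hn⟩ := hne
    exact ⟨c - n, by rwa [ext_le]⟩

/-- Convergence of the scaled sequence. -/
lemma seq_converges (hq : 0 < q) (hqp : q < p) {S : ℕ → ℕ} (h1 : ∀ n, p * S n ≤ q * S (n + 1))
    (h2 : ∀ n, q * S (n + 1) ≤ p * S n + (p - 1)) (c : ℤ) :
    ∃ x : ℝ, (S 0 : ℝ) * ((p : ℝ) / q) ^ c ≤ x ∧
      Tendsto (fun n : ℕ => (S n : ℝ) * ((p : ℝ) / q) ^ (c - (n : ℤ))) atTop (𝓝 x) := by
  have hq' : (0 : ℝ) < q := by exact_mod_cast hq
  have hp' : (0 : ℝ) < p := by exact_mod_cast (by omega : 0 < p)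
  have hpq : (0 : ℝ) < (p : ℝ) - q := by
    have : (q : ℝ) < p := by exact_mod_cast hqp
    linarith
  have hcst : 0 ≤ cst p q := by
    unfold cst
    have : (1 : ℝ) ≤ p := by exact_mod_cast (by omega : 1 ≤ p)
    apply div_nonneg <;> linarith
  have hmono : Monotone (fun n : ℕ => (S n : ℝ) * ((p : ℝ) / q) ^ (c - (n : ℤ))) := by
    apply monotone_nat_of_le_succ
    intro n
    have e : c - (n : ℤ) = c - ((n + 1 : ℕ) : ℤ) + 1 := by push_cast; ring
    rw [e, zpow_add_one₀ (by positivity)]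
    have h1' : (p : ℝ) * S n ≤ q * S (n + 1) := by exact_mod_cast h1 n
    have hpos : (0 : ℝ) < ((p : ℝ) / q) ^ (c - ((n + 1 : ℕ) : ℤ)) := by positivity
    have : (S n : ℝ) * ((p : ℝ) / q) ≤ S (n + 1) := by
      rw [mul_div_assoc', div_le_iff₀ hq']; linarith
    calc (S n : ℝ) * (((p : ℝ) / q) ^ (c - ((n + 1 : ℕ) : ℤ)) * ((p : ℝ) / q))
        = ((S n : ℝ) * ((p : ℝ) / q)) * ((p : ℝ) / q) ^ (c - ((n + 1 : ℕ) : ℤ)) := by ring
      _ ≤ _ := mul_le_mul_of_nonneg_right this hpos.le
  have hanti : ∀ n : ℕ, ((S n : ℝ) + cst p q) * ((p : ℝ) / q) ^ (c - (n : ℤ)) ≤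
      ((S 0 : ℝ) + cst p q) * ((p : ℝ) / q) ^ c := by
    intro n
    induction n with
    | zero => simp
    | succ n ih =>
      refine le_trans ?_ ih
      have := upper_anti hq hqp (h2 n) (c - ((n + 1 : ℕ) : ℤ))
      have e : c - ((n + 1 : ℕ) : ℤ) + 1 = c - n := by push_cast; ring
      rwa [e] at this
  have hbdd : BddAbove (Set.range (fun n : ℕ => (S n : ℝ) * ((p : ℝ) / q) ^ (c - (n : ℤ)))) := by
    refine ⟨((S 0 : ℝ) + cst p q) * ((p : ℝ) / q) ^ c, ?_⟩
    rintro _ ⟨n, rfl⟩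
    refine le_trans ?_ (hanti n)
    have hpos : (0 : ℝ) < ((p : ℝ) / q) ^ (c - (n : ℤ)) := by positivity
    have := mul_nonneg hcst hpos.le
    simp only
    linarith
  refine ⟨_, ?_, tendsto_atTop_ciSup hmono hbdd⟩
  have := le_ciSup hbdd 0
  simpa using this

/-- An exceptional sequence of order `r` gives `r + 2` expansions of one positive real, with
nonempty part left of the marked position. -/
theorem exists_expansions (hq : 2 ≤ q) (hqp : q < p) {r : ℕ} {M : ℕ → ℕ} (hM : Exceptional p q r M) :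
    ∃ x : ℝ, 0 < x ∧ ∃ F : Finset (ℤ → ℕ), F.card = r + 2 ∧
      ∀ a ∈ F, ∃ k : ℤ, 0 ≤ k ∧ IsExpansion p q x k a := by
  classical
  obtain ⟨hM0, hMs⟩ := hM
  have hp : 0 < p := by omega
  have hq' : (0 : ℝ) < q := by exact_mod_cast (by omega : 0 < q)
  have hp' : (0 : ℝ) < p := by exact_mod_cast hp
  obtain ⟨t, rfl⟩ : ∃ t, p = q + t := ⟨p - q, by omega⟩
  have ht : 1 ≤ t := by omega
  have et : q + t - q = t := by omega
  rw [et] at hMs
  have hmono : ∀ n, 1 ≤ M n ∧ M n + 1 ≤ M (n + 1) := by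
    intro n
    induction n with
    | zero =>
      refine ⟨hM0, ?_⟩
      have := (hMs 0).1
      by_contra hcon
      push Not at hcon
      have h1 : q * M (0 + 1) ≤ q * M 0 := Nat.mul_le_mul_left _ (by omega)
      have h2 : 0 < t * M 0 := Nat.mul_pos (by omega) (by omega)
      nlinarith
    | succ n ih =>
      refine ⟨by omega, ?_⟩
      have := (hMs (n + 1)).1
      by_contra hcon
      push Not at hcon
      have h1 : q * M (n + 1 + 1) ≤ q * M (n + 1) := Nat.mul_le_mul_left _ (by omega)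
      have h2 : 0 < t * M (n + 1) := Nat.mul_pos (by omega) (by omega)
      nlinarith
  -- the shifted sequences
  let S : ℕ → ℕ → ℕ := fun i n => M n + i - 1
  have hSd : ∀ i, i < r + 2 → ∀ n, (q + t) * S i n ≤ q * S i (n + 1) ∧
      q * S i (n + 1) < (q + t) * S i n + (q + t) := by
    intro i hi n
    have h0 := (hmono n).1
    have h1 := (hMs n).1
    have h2 := (hMs n).2
    have h3 := (hmono n).2
    have e1 : (S i n : ℤ) = M n + i - 1 := by simp only [S]; omega
    have e2 : (S i (n + 1) : ℤ) = M (n + 1) + i - 1 := by simp only [S]; omega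
    have hi' : (i : ℤ) * t ≤ (r + 1) * t := by
      apply mul_le_mul_of_nonneg_right _ (by positivity)
      omega
    have hi'' : (0 : ℤ) ≤ i * t := by positivity
    constructor
    · zify at h1 ⊢
      rw [e1, e2]
      nlinarith
    · zify at h2 ⊢
      rw [e1, e2]
      nlinarith
  have hSdiv : ∀ i, i < r + 2 → ∀ n, S i n = q * S i (n + 1) / (q + t) := by
    intro i hi n
    obtain ⟨h1, h2⟩ := hSd i hi n
    symm
    rw [Nat.div_eq_iff (by omega)]
    constructor
    · nlinarith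
    · have : S i n * (q + t) + (q + t) - 1 = (q + t) * S i n + (q + t) - 1 := by ring_nf
      rw [Nat.mul_comm (S i n)]
      omega
  obtain ⟨x, hx0, hx⟩ := seq_converges (q := q) (p := q + t) (by omega) hqp (S := M)
    (fun n => by have := (hMs n).1; nlinarith) (fun n => by have := (hMs n).2; omega) 1
  have hxpos : 0 < x := by
    refine lt_of_lt_of_le ?_ hx0
    have : (0 : ℝ) < M 0 := by exact_mod_cast hM0
    positivity
  have hval : ∀ i, i < r + 2 → HasValue (q + t) q (ext (q + t) q (S i) 1) x := by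
    intro i hi
    rw [hasValue_shift 1]
    have h1 := hx.add (tendsto_zpow_sub (p := q + t) (q := q) (by omega) hqp 1 ((i : ℝ) - 1))
    rw [add_zero] at h1
    refine h1.congr ?_
    intro n
    rw [ext_le]
    have e1 : (S i n : ℝ) = M n + i - 1 := by
      have h0 := (hmono n).1
      have : (S i n : ℤ) = M n + i - 1 := by simp only [S]; omega
      exact_mod_cast this
    rw [e1]; ring
  have hpath : ∀ i, i < r + 2 → IsPath (q + t) q (ext (q + t) q (S i) 1) := by
    intro i hi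
    refine ext_path 1 (hSdiv i hi) ⟨1, ?_⟩
    have h1 := (hmono 0).2
    have h2 := (hmono 0).1
    simp only [S]
    simp only [zero_add] at h1
    omega
  have hinj : Set.InjOn (fun i => dig (q + t) q (ext (q + t) q (S i) 1))
      (Finset.range (r + 2) : Set ℕ) := by
    intro i hi i' hi' h
    have hi1 : i < r + 2 := by simpa using hi
    have hi1' : i' < r + 2 := by simpa using hi'
    have h1 := dig_inj (by omega) hqp (hpath i hi1) (hpath i' hi1') h
    have h2 := congrFun h1 (1 - (1 : ℕ))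
    rw [ext_le, ext_le] at h2
    have h3 := (hmono 0).2
    have h4 := (hmono 0).1
    simp only [S] at h2
    simp only [zero_add] at h3
    omega
  refine ⟨x, hxpos, (Finset.range (r + 2)).image
    (fun i => dig (q + t) q (ext (q + t) q (S i) 1)), ?_, ?_⟩
  · rw [Finset.card_image_of_injOn hinj, Finset.card_range]
  · intro a ha
    obtain ⟨i, hi, rfl⟩ := Finset.mem_image.1 ha
    have hi1 : i < r + 2 := by simpa using hi
    obtain ⟨k, hk0, hk⟩ := (hpath i hi1).exists_top hqp
    refine ⟨k, ?_, mem_expansions (by omega) hqp (hpath i hi1) (hval i hi1) hk0 hk⟩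
    by_contra hcon
    push Not at hcon
    have h2 := hk (1 - (1 : ℕ)) (by push_cast; omega)
    rw [ext_le] at h2
    have h3 := (hmono 0).2
    have h4 := (hmono 0).1
    simp only [S] at h2
    simp only [zero_add] at h3
    omega

end Pool.Agent.Lib.MP_ad6092_nt
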