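import Mathlib

/-!
# Expansions of positive reals in a rational base `p/q` (definitions)
-/

namespace Pool.Agent.Lib.MP_ad6092_nt

/-- The representation of the natural number `N` in base `p/q`, written with the most significant
digit first.  It is the empty word for `N = 0`; otherwise one writes `q N = p N' + a` with
`0 ≤ a < p` and appends the digit `a` to the representation of `N'`. (For `p ≤ q`, which is never
used, the value is the empty word.) -/
def repr (p q : ℕ) (N : ℕ) : List ℕ :=
  if _h : N = 0 ∨ p ≤ q then [] else repr p q (q * N / p) ++ [q * N % p]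
termination_by N
decreasing_by
  rw [not_or, not_le] at _h
  exact Nat.div_lt_of_lt_mul (Nat.mul_lt_mul_of_pos_right _h.2 (Nat.pos_of_ne_zero _h.1))

/-- The language of integers: all representations of natural numbers in base `p/q`. -/
def language (p q : ℕ) : Set (List ℕ) := Set.range (repr p q)

/-- The finite word `a_k a_{k-1} ... a_j`. -/
def word (a : ℤ → ℕ) (k j : ℤ) : List ℕ :=
  (List.range (k + 1 - j).toNat).map fun i : ℕ => a (k - (i : ℤ))

/-- The infinite word `a_k a_{k-1} a_{k-2} ...` (positions are integers, the marked position is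
between `0` and `-1`, the digits above position `k` are set to `0`) is an expansion of `x` in base
`p/q`: all its finite prefixes `a_k ... a_j` lie in the language of integers and
`x = (1/q) ∑_{l ≤ k} a_l (p/q)^l`. -/
def IsExpansion (p q : ℕ) (x : ℝ) (k : ℤ) (a : ℤ → ℕ) : Prop :=
  (∀ l, k < l → a l = 0) ∧ (∀ j, j ≤ k → word a k j ∈ language p q) ∧
    HasSum (fun i : ℕ => (a (k - i) : ℝ) * ((p : ℝ) / q) ^ (k - (i : ℤ)) / q) x

/-- The set of all expansions of `x` in base `p/q`. -/
def expansions (p q : ℕ) (x : ℝ) : Set (ℤ → ℕ) := {a | ∃ k, IsExpansion p q x k a}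

end Pool.Agent.Lib.MP_ad6092_nt
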