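import Pool.Agent.Lib.MP_ad6092_nt.Core

namespace Pool.Agent.Lib.MP_ad6092_nt

open Filter Topology

variable {p q : ℕ}

/-- gaps between paths do not decrease downwards -/
lemma gap_mono (hqp : q < p) {N N' : ℤ → ℕ} (h : IsPath p q N) (h' : IsPath p q N') {l : ℤ}
    (hl : N (l + 1) < N' (l + 1)) : N' (l + 1) + N l ≤ N' l + N (l + 1) := by
  have e := h.eq l
  have e' := h'.eq l
  have hd : dig p q N l < p := dig_lt (by omega) N l
  by_contra hcon
  push Not at hcon
  zify at *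
  set u : ℤ := N' (l + 1) - N (l + 1) with hu
  have h1 : (N' l : ℤ) - N l ≤ u - 1 := by omega
  have h2 : (q : ℤ) * ((N' l : ℤ) - N l) = p * u + dig p q N' l - dig p q N l := by
    rw [mul_sub, e, e']; ring
  have h3 : (q : ℤ) * ((N' l : ℤ) - N l) ≤ q * (u - 1) :=
    mul_le_mul_of_nonneg_left h1 (by positivity)
  have h4 : (0 : ℤ) ≤ dig p q N' l := by positivity
  have h5 : (0 : ℤ) ≤ (p - q) * (u - 1) := mul_nonneg (by omega) (by omega)
  nlinarith

lemma lt_down (hqp : q < p) {N N' : ℤ → ℕ} (h : IsPath p q N) (h' : IsPath p q N') {l : ℤ}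
    (hl : N (l + 1) < N' (l + 1)) : N l < N' l := by
  have := gap_mono hqp h h' hl
  omega

lemma lt_down_nat (hqp : q < p) {N N' : ℤ → ℕ} (h : IsPath p q N) (h' : IsPath p q N') {l : ℤ}
    (hl : N l < N' l) (n : ℕ) : N (l - n) < N' (l - n) := by
  induction n with
  | zero => simpa using hl
  | succ n ih =>
    apply lt_down hqp h h'
    have : l - ((n + 1 : ℕ) : ℤ) + 1 = l - n := by push_cast; ring
    rw [this]; exact ih

lemma lt_down_le (hqp : q < p) {N N' : ℤ → ℕ} (h : IsPath p q N) (h' : IsPath p q N') {l m : ℤ}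
    (hl : N l < N' l) (hm : m ≤ l) : N m < N' m := by
  have := lt_down_nat hqp h h' hl (l - m).toNat
  rwa [Int.toNat_of_nonneg (by omega), sub_sub_cancel] at this

lemma eq_up {N N' : ℤ → ℕ} (h : IsPath p q N) (h' : IsPath p q N') {l : ℤ}
    (hl : N l = N' l) (n : ℕ) : N (l + n) = N' (l + n) := by
  induction n with
  | zero => simpa using hl
  | succ n ih =>
    have : l + ((n + 1 : ℕ) : ℤ) = l + n + 1 := by push_cast; ring
    rw [this, h.step, h'.step, ih]

lemma eq_up_le {N N' : ℤ → ℕ} (h : IsPath p q N) (h' : IsPath p q N') {l m : ℤ}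
    (hl : N l = N' l) (hm : l ≤ m) : N m = N' m := by
  have := eq_up h h' hl (m - l).toNat
  rwa [Int.toNat_of_nonneg (by omega), add_sub_cancel] at this

lemma dig_inj (hq : 0 < q) (hqp : q < p) {N N' : ℤ → ℕ} (h : IsPath p q N) (h' : IsPath p q N')
    (hd : dig p q N = dig p q N') : N = N' := by
  obtain ⟨k, -, hk⟩ := h.exists_top hqp
  obtain ⟨k', -, hk'⟩ := h'.exists_top hqp
  have key : ∀ n : ℕ, N (max k k' + 1 - n) = N' (max k k' + 1 - n) := by
    intro n
    induction n with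
    | zero =>
      rw [hk _ (by push_cast; omega), hk' _ (by push_cast; omega)]
    | succ n ih =>
      have e : max k k' + 1 - ((n + 1 : ℕ) : ℤ) + 1 = max k k' + 1 - n := by push_cast; ring
      have e1 := h.eq (max k k' + 1 - ((n + 1 : ℕ) : ℤ))
      have e2 := h'.eq (max k k' + 1 - ((n + 1 : ℕ) : ℤ))
      rw [e, hd] at e1
      rw [e, ← ih] at e2
      exact Nat.eq_of_mul_eq_mul_left hq (e1.trans e2.symm)
  funext l
  rcases le_total l (max k k' + 1) with hl | hl
  · have := key (max k k' + 1 - l).toNat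
    rwa [Int.toNat_of_nonneg (by omega), sub_sub_cancel] at this
  · rw [hk _ (by omega), hk' _ (by omega)]

lemma ne_down {N N' : ℤ → ℕ} (h : IsPath p q N) (h' : IsPath p q N')
    (hne : N ≠ N') : ∀ᶠ l in atBot, N l ≠ N' l := by
  obtain ⟨l0, hl0⟩ : ∃ l, N l ≠ N' l := by
    by_contra hcon
    push Not at hcon
    exact hne (funext hcon)
  filter_upwards [eventually_le_atBot l0] with l hl heq
  exact hl0 (eq_up_le h h' heq hl)

/-- the constant (p-1)/(p-q) -/
noncomputable def cst (p q : ℕ) : ℝ := ((p : ℝ) - 1) / ((p : ℝ) - q)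

lemma upper_anti (hq : 0 < q) (hqp : q < p) {N0 N1 : ℕ} (h : q * N0 ≤ p * N1 + (p - 1)) (l : ℤ) :
    ((N0 : ℝ) + cst p q) * ((p : ℝ) / q) ^ l ≤ ((N1 : ℝ) + cst p q) * ((p : ℝ) / q) ^ (l + 1) := by
  have hq' : (0 : ℝ) < q := by exact_mod_cast hq
  have hp' : (0 : ℝ) < p := by exact_mod_cast (by omega : 0 < p)
  have hpq : (0 : ℝ) < (p : ℝ) - q := by
    have : (q : ℝ) < p := by exact_mod_cast hqp
    linarith
  have h' : (q : ℝ) * N0 ≤ p * N1 + ((p : ℝ) - 1) := by
    have : ((q * N0 : ℕ) : ℝ) ≤ ((p * N1 + (p - 1) : ℕ) : ℝ) := by exact_mod_cast h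
    push_cast [Nat.cast_sub (show 1 ≤ p by omega)] at this
    exact this
  rw [zpow_add_one₀ (by positivity)]
  have hpos : (0 : ℝ) < ((p : ℝ) / q) ^ l := by positivity
  have key : (N0 : ℝ) + cst p q ≤ ((N1 : ℝ) + cst p q) * ((p : ℝ) / q) := by
    rw [mul_div_assoc', le_div_iff₀ hq']
    have : cst p q * (p - q) = p - 1 := by
      unfold cst; field_simp
    nlinarith
  calc ((N0 : ℝ) + cst p q) * ((p : ℝ) / q) ^ l
      ≤ (((N1 : ℝ) + cst p q) * ((p : ℝ) / q)) * ((p : ℝ) / q) ^ l :=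
        mul_le_mul_of_nonneg_right key hpos.le
    _ = _ := by ring

lemma tendsto_zpow_sub (hq : 0 < q) (hqp : q < p) (k : ℤ) (c : ℝ) :
    Tendsto (fun n : ℕ => c * ((p : ℝ) / q) ^ (k - (n : ℤ))) atTop (𝓝 0) := by
  have hq' : (0 : ℝ) < q := by exact_mod_cast hq
  have hp' : (0 : ℝ) < p := by exact_mod_cast (by omega : 0 < p)
  have hlt : (q : ℝ) / p < 1 := by
    rw [div_lt_one hp']; exact_mod_cast hqp
  have h1 : Tendsto (fun n : ℕ => (c * ((p : ℝ) / q) ^ k) * ((q : ℝ) / p) ^ n) atTop (𝓝 0) := by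
    have := (tendsto_pow_atTop_nhds_zero_of_lt_one (by positivity) hlt).const_mul
      (c * ((p : ℝ) / q) ^ k)
    simpa using this
  refine h1.congr ?_
  intro n
  rw [zpow_sub₀ (by positivity), zpow_natCast]
  rw [show ((q : ℝ) / p) = ((p : ℝ) / q)⁻¹ by rw [inv_div], inv_pow]
  ring

lemma value_lower (hq : 0 < q) (_hqp : q < p) {N : ℤ → ℕ} (h : IsPath p q N) {x : ℝ}
    (hx : HasValue p q N x) (j : ℤ) : (N j : ℝ) * ((p : ℝ) / q) ^ j ≤ x := by
  have hx' := (hasValue_shift (p := p) (q := q) (N := N) (x := x) j).1 hx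
  have hmono : Monotone (fun n : ℕ => (N (j - (n : ℤ)) : ℝ) * ((p : ℝ) / q) ^ (j - (n : ℤ))) := by
    apply monotone_nat_of_le_succ
    intro n
    have := pathval_mono hq h (j - ((n + 1 : ℕ) : ℤ))
    have e : j - ((n + 1 : ℕ) : ℤ) + 1 = j - n := by push_cast; ring
    rwa [e] at this
  have := hmono.ge_of_tendsto hx' 0
  simpa using this

lemma value_upper (hq : 0 < q) (hqp : q < p) {N : ℤ → ℕ} (h : IsPath p q N) {x : ℝ}
    (hx : HasValue p q N x) (j : ℤ) : x ≤ ((N j : ℝ) + cst p q) * ((p : ℝ) / q) ^ j := by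
  have hx' := (hasValue_shift (p := p) (q := q) (N := N) (x := x) j).1 hx
  have hanti : Antitone (fun n : ℕ => ((N (j - (n : ℤ)) : ℝ) + cst p q) *
      ((p : ℝ) / q) ^ (j - (n : ℤ))) := by
    apply antitone_nat_of_succ_le
    intro n
    have e : j - ((n + 1 : ℕ) : ℤ) + 1 = j - n := by push_cast; ring
    have h1 := h.eq (j - ((n + 1 : ℕ) : ℤ))
    have h2 := dig_lt (q := q) (show 0 < p by omega) N (j - ((n + 1 : ℕ) : ℤ))
    have h3 : q * N (j - ((n + 1 : ℕ) : ℤ)) ≤ p * N (j - ((n + 1 : ℕ) : ℤ) + 1) + (p - 1) := by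
      omega
    have := upper_anti hq hqp h3 (j - ((n + 1 : ℕ) : ℤ))
    rwa [e] at this
  have hlim : Tendsto (fun n : ℕ => ((N (j - (n : ℤ)) : ℝ) + cst p q) *
      ((p : ℝ) / q) ^ (j - (n : ℤ))) atTop (𝓝 (x + 0)) := by
    have := hx'.add (tendsto_zpow_sub hq hqp j (cst p q))
    refine this.congr ?_
    intro n; ring
  rw [add_zero] at hlim
  have := hanti.le_of_tendsto hlim 0
  simpa using this

lemma value_lower_strict (hq : 2 ≤ q) (hqp : q < p) (hcop : Nat.Coprime p q) {N : ℤ → ℕ}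
    (h : IsPath p q N) {x : ℝ} (hx : HasValue p q N x) {j : ℤ} (hj : N j ≠ 0) :
    (N j : ℝ) * ((p : ℝ) / q) ^ j < x := by
  rcases (value_lower (by omega) hqp h hx j).lt_or_eq with hlt | heq
  · exact hlt
  exfalso
  have hq' : (0 : ℝ) < q := by exact_mod_cast (by omega : 0 < q)
  have hp' : (0 : ℝ) < p := by exact_mod_cast (by omega : 0 < p)
  have hall : ∀ n : ℕ, q ^ n * N (j - n) = p ^ n * N j := by
    intro n
    have h1 : (N j : ℝ) * ((p : ℝ) / q) ^ j ≤ (N (j - n) : ℝ) * ((p : ℝ) / q) ^ (j - (n : ℤ)) := by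
      induction n with
      | zero => simp
      | succ n ih =>
        have := pathval_mono (by omega) h (j - ((n + 1 : ℕ) : ℤ))
        have e : j - ((n + 1 : ℕ) : ℤ) + 1 = j - n := by push_cast; ring
        rw [e] at this
        exact ih.trans this
    have h2 := value_lower (by omega) hqp h hx (j - n)
    have h3 : (N (j - n) : ℝ) * ((p : ℝ) / q) ^ (j - (n : ℤ)) = (N j : ℝ) * ((p : ℝ) / q) ^ j := by
      linarith
    rw [zpow_sub₀ (by positivity), zpow_natCast] at h3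
    have hpos : (0 : ℝ) < ((p : ℝ) / q) ^ j := by positivity
    have h4 : (N (j - n) : ℝ) / ((p : ℝ) / q) ^ n = N j := by
      have : ((N (j - n) : ℝ) / ((p : ℝ) / q) ^ n) * ((p : ℝ) / q) ^ j =
          (N j : ℝ) * ((p : ℝ) / q) ^ j := by
        rw [← h3]; ring
      exact mul_right_cancel₀ hpos.ne' this
    rw [div_eq_iff (by positivity), div_pow] at h4
    have h5 : (q : ℝ) ^ n * N (j - n) = (p : ℝ) ^ n * N j := by
      rw [h4]; field_simp
    exact_mod_cast h5
  have hdvd : ∀ n : ℕ, q ^ n ∣ N j := by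
    intro n
    have h1 : q ^ n ∣ p ^ n * N j := ⟨_, (hall n).symm⟩
    exact (Nat.Coprime.pow n n hcop.symm).dvd_of_dvd_mul_left h1
  have h1 := Nat.le_of_dvd (Nat.pos_of_ne_zero hj) (hdvd (N j))
  have h2 : N j < q ^ N j := Nat.lt_pow_self (by omega)
  omega

/-- The key bound for the gap of two paths with the same value. -/
lemma gap_bound (hq : 2 ≤ q) (hqp : q < p) (hcop : Nat.Coprime p q) {N N' : ℤ → ℕ}
    (h : IsPath p q N) (h' : IsPath p q N') {x : ℝ} (hx : HasValue p q N x)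
    (hx' : HasValue p q N' x) {j : ℤ} (hj : N j < N' j) :
    (p - q) * (N' j - N j) < p - 1 := by
  have h1 := value_lower_strict hq hqp hcop h' hx' (show N' j ≠ 0 by omega)
  have h2 := value_upper (by omega) hqp h hx j
  have hq' : (0 : ℝ) < q := by exact_mod_cast (by omega : 0 < q)
  have hp' : (0 : ℝ) < p := by exact_mod_cast (by omega : 0 < p)
  have hpq : (0 : ℝ) < (p : ℝ) - q := by
    have : (q : ℝ) < p := by exact_mod_cast hqp
    linarith
  have hpos : (0 : ℝ) < ((p : ℝ) / q) ^ j := by positivity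
  have h3 : (N' j : ℝ) < N j + cst p q := lt_of_mul_lt_mul_right (h1.trans_le h2) hpos.le
  have h4 : ((p : ℝ) - q) * (N' j - N j) < p - 1 := by
    have e : cst p q * ((p : ℝ) - q) = p - 1 := by unfold cst; field_simp
    nlinarith
  have h5 : (((p - q) * (N' j - N j) : ℕ) : ℝ) < ((p - 1 : ℕ) : ℝ) := by
    rw [Nat.cast_mul, Nat.cast_sub hqp.le, Nat.cast_sub hj.le, Nat.cast_sub (by omega)]
    simpa using h4
  exact_mod_cast h5

/-- choice of paths for a finite set of expansions, distinct from some level on. -/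
lemma finset_paths (hq : 0 < q) (hqp : q < p) {x : ℝ} (F : Finset (ℤ → ℕ))
    (hF : ∀ a ∈ F, a ∈ expansions p q x) :
    ∃ P : (ℤ → ℕ) → ℤ → ℕ, (∀ a ∈ F, IsPath p q (P a) ∧ HasValue p q (P a) x ∧ a = dig p q (P a)) ∧
      ∃ j0 : ℤ, ∀ l ≤ j0, ∀ a ∈ F, ∀ b ∈ F, a ≠ b → P a l ≠ P b l := by
  classical
  have : ∀ a, a ∈ F → ∃ N, IsPath p q N ∧ HasValue p q N x ∧ a = dig p q N :=
    fun a ha => exists_path hq hqp (hF a ha)
  choose! P hP using this
  refine ⟨P, hP, ?_⟩
  have : ∀ᶠ l in atBot, ∀ a ∈ F, ∀ b ∈ F, a ≠ b → P a l ≠ P b l := by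
    rw [eventually_all_finset]
    intro a ha
    rw [eventually_all_finset]
    intro b hb
    by_cases hab : a = b
    · exact Eventually.of_forall fun l h => absurd hab h
    · have hne : P a ≠ P b := by
        intro h
        apply hab
        rw [(hP a ha).2.2, (hP b hb).2.2, h]
      filter_upwards [ne_down (hP a ha).1 (hP b hb).1 hne] with l hl _
      exact hl
  obtain ⟨j0, hj0⟩ := eventually_atBot.1 this
  exact ⟨j0, hj0⟩

theorem card_bound (hq : 2 ≤ q) (hqp : q < p) (hcop : Nat.Coprime p q) {x : ℝ}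
    (F : Finset (ℤ → ℕ)) (hF : ∀ a ∈ F, a ∈ expansions p q x) (h2 : 2 ≤ F.card) :
    (p - q) * (F.card - 1) < p - 1 := by
  classical
  obtain ⟨P, hP, j0, hj0⟩ := finset_paths (by omega) hqp F hF
  have hne : F.Nonempty := Finset.card_pos.1 (by omega)
  obtain ⟨lo, hlo, hlo'⟩ := Finset.exists_min_image F (fun a => P a j0) hne
  obtain ⟨hi, hhi, hhi'⟩ := Finset.exists_max_image F (fun a => P a j0) hne
  have hinj : Set.InjOn (fun a => P a j0) (F : Set (ℤ → ℕ)) := by
    intro a ha b hb hab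
    by_contra hn
    exact hj0 j0 le_rfl a ha b hb hn hab
  have hcard : (F.image (fun a => P a j0)).card = F.card := Finset.card_image_of_injOn hinj
  have hsub : F.image (fun a => P a j0) ⊆ Finset.Icc (P lo j0) (P hi j0) := by
    intro y hy
    obtain ⟨a, ha, rfl⟩ := Finset.mem_image.1 hy
    exact Finset.mem_Icc.2 ⟨hlo' a ha, hhi' a ha⟩
  have hle := Finset.card_le_card hsub
  rw [hcard, Nat.card_Icc] at hle
  have hlt : P lo j0 < P hi j0 := by omega
  have := gap_bound hq hqp hcop (hP lo hlo).1 (hP hi hhi).1 (hP lo hlo).2.1 (hP hi hhi).2.1 hlt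
  calc (p - q) * (F.card - 1) ≤ (p - q) * (P hi j0 - P lo j0) :=
        Nat.mul_le_mul_left _ (by omega)
    _ < p - 1 := this

end Pool.Agent.Lib.MP_ad6092_nt
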